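import Pool.Agent.helper54.V3.SpecG

/-!
# Project v3 (MP_af9036_an): GML, the limit object
-/

set_option autoImplicit false

open Complex Metric Set Filter Topology MeasureTheory MPS V3

noncomputable section

namespace V3S

theorem GML_zl_mem (t : ℂ) (n : ℤ) : (n : ℂ) * t ∈ ZL t := ⟨n, rfl⟩

/-- if the poles form a line of lattice points, all rotations are trivial. -/
theorem GML_A1 (P : Set ℂ) (A : ℂ → ℂ) (t : ℂ) (ht : t ≠ 0) (hP : P = ZL t)
    (hA1 : ∀ p ∈ P, ‖A p‖ = 1)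
    (hcom : ∀ p ∈ P, ∀ p' ∈ P, p + A p * p' = p' + A p' * p) : ∀ p ∈ P, A p = 1 := by
  intro p hp
  by_contra hne
  have hA' : 0 < ‖A p - 1‖ := norm_pos_iff.mpr (sub_ne_zero.mpr hne)
  have ht' : 0 < ‖t‖ := norm_pos_iff.mpr ht
  obtain ⟨n, hn⟩ := exists_nat_gt (2 * ‖p‖ / (‖A p - 1‖ * ‖t‖))
  have hp' : ((n : ℤ) : ℂ) * t ∈ P := by rw [hP]; exact GML_zl_mem t n
  have h1 : (((n : ℤ) : ℂ) * t) * (A p - 1) = p * (A (((n : ℤ) : ℂ) * t) - 1) := by
    linear_combination hcom p hp _ hp'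
  have h2 : ‖A (((n : ℤ) : ℂ) * t) - 1‖ ≤ 2 := by
    have := norm_sub_le (A (((n : ℤ) : ℂ) * t)) 1
    rw [hA1 _ hp', norm_one] at this
    linarith
  have h3 : ‖(((n : ℤ) : ℂ) * t)‖ = n * ‖t‖ := by
    rw [norm_mul]; simp
  have h4 : (n * ‖t‖) * ‖A p - 1‖ ≤ 2 * ‖p‖ := by
    rw [← h3, ← norm_mul, h1, norm_mul]
    nlinarith [mul_le_mul_of_nonneg_left h2 (norm_nonneg p)]
  rw [div_lt_iff₀ (by positivity)] at hn
  nlinarith

/-- `Pin D` is closed. -/
theorem GML_closed (D : ℕ → Dat) : IsClosed (Pin D) := by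
  rw [← isOpen_compl_iff, Metric.isOpen_iff]
  intro x hx
  by_contra hcon
  push Not at hcon
  apply hx
  intro ε hε
  have h1 := hcon (ε / 2) (by positivity)
  rw [Set.not_subset] at h1
  obtain ⟨p, hp1, hp2⟩ := h1
  rw [Set.notMem_compl_iff] at hp2
  filter_upwards [hp2 (ε / 2) (by positivity)] with m hm
  obtain ⟨l, hl⟩ := hm
  refine ⟨l, ?_⟩
  have h2 : ‖p - x‖ < ε / 2 := by rwa [mem_ball, dist_eq_norm] at hp1
  calc ‖(D m).p l - x‖ = ‖((D m).p l - p) + (p - x)‖ := by ring_nf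
    _ ≤ ‖(D m).p l - p‖ + ‖p - x‖ := norm_add_le _ _
    _ < ε := by linarith

/-- a uniform distance for finitely many points which are pairwise different modulo `ℤ t`. -/
theorem GML_sep (t : ℂ) (ht : t ≠ 0) (hcl : IsClosed (ZL t)) (S : Finset ℂ)
    (hS : ∀ z ∈ S, ∀ z' ∈ S, z ≠ z' → z' - z ∉ ZL t) :
    ∃ δ > (0 : ℝ), ∀ z ∈ S, ∀ z' ∈ S, ∀ p ∈ ZL t, p ≠ 0 → 3 * δ ≤ ‖z' - z - p‖ := by
  have key : ∀ w ∈ S ×ˢ S, ∃ δ > (0 : ℝ), ∀ p ∈ ZL t, p ≠ 0 → 3 * δ ≤ ‖w.2 - w.1 - p‖ := by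
    intro w hw
    rw [Finset.mem_product] at hw
    by_cases h : w.1 = w.2
    · refine ⟨‖t‖ / 3, by have := norm_pos_iff.mpr ht; positivity, ?_⟩
      rintro p ⟨n, rfl⟩ hp0
      have hn : n ≠ 0 := by
        rintro rfl
        simp at hp0
      rw [h, sub_self, zero_sub, norm_neg]
      have h1 : (1 : ℝ) ≤ ‖(n : ℂ)‖ := by
        rw [Complex.norm_intCast]
        exact_mod_cast Int.one_le_abs hn
      calc 3 * (‖t‖ / 3) = 1 * ‖t‖ := by ring
        _ ≤ ‖(n : ℂ)‖ * ‖t‖ := mul_le_mul_of_nonneg_right h1 (norm_nonneg _)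
        _ = ‖(n : ℂ) * t‖ := (norm_mul _ _).symm
    · have h1 := hS w.1 hw.1 w.2 hw.2 h
      have h2 : (ZL t)ᶜ ∈ 𝓝 (w.2 - w.1) := hcl.isOpen_compl.mem_nhds h1
      obtain ⟨r, hr, hr'⟩ := Metric.mem_nhds_iff.mp h2
      refine ⟨r / 3, by positivity, fun p hp _ => ?_⟩
      by_contra hlt
      push Not at hlt
      have : p ∈ ball (w.2 - w.1) r := by
        rw [mem_ball, dist_eq_norm, ← norm_neg, neg_sub]
        linarith
      exact hr' this hp
  choose! δ hδ hδ' using key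
  by_cases hne : (S ×ˢ S).Nonempty
  · obtain ⟨w₀, hw₀, hmin⟩ := (S ×ˢ S).exists_min_image δ hne
    refine ⟨δ w₀, hδ w₀ hw₀, fun z hz z' hz' p hp hp0 => ?_⟩
    have hw : (z, z') ∈ S ×ˢ S := Finset.mem_product.mpr ⟨hz, hz'⟩
    have := hδ' (z, z') hw p hp hp0
    have := hmin (z, z') hw
    simp only at *
    linarith
  · refine ⟨1, one_pos, fun z hz z' hz' => ?_⟩
    exact absurd ⟨(z, z'), Finset.mem_product.mpr ⟨hz, hz'⟩⟩ hne

/-- change of variables for the multiplication by `t`. -/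
theorem GML_cv (t : ℂ) (ht : t ≠ 0) (S : Set ℂ) (hS : MeasurableSet S) (F : ℂ → ℝ) :
    ∫ z in S, F (t * z) = (‖t‖ ^ 2)⁻¹ * ∫ x in (fun z => t * z) '' S, F x := by
  have hdet : ((ContinuousLinearMap.toSpanSingleton ℂ t).restrictScalars ℝ : ℂ →L[ℝ] ℂ).det =
      ‖t‖ ^ 2 := by
    have h1 : ((ContinuousLinearMap.toSpanSingleton ℂ t).restrictScalars ℝ : ℂ →L[ℝ] ℂ).det =
      LinearMap.det (((ContinuousLinearMap.toSpanSingleton ℂ t : ℂ →L[ℂ] ℂ) :
        ℂ →ₗ[ℂ] ℂ).restrictScalars ℝ) := rfl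
    rw [h1, LinearMap.det_restrictScalars, Algebra.norm_complex_apply, LinearMap.det_ring]
    simp [Complex.normSq_eq_norm_sq]
  have hder : ∀ z ∈ S, HasFDerivWithinAt (fun z => t * z)
      ((ContinuousLinearMap.toSpanSingleton ℂ t).restrictScalars ℝ : ℂ →L[ℝ] ℂ) S z := by
    intro z _
    have h1 : HasDerivAt (fun z : ℂ => t * z) t z := by
      simpa using (hasDerivAt_id z).const_mul t
    exact (h1.hasFDerivAt.restrictScalars ℝ).hasFDerivWithinAt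
  have hinj : InjOn (fun z => t * z) S := fun a _ b _ h => mul_left_cancel₀ ht h
  rw [integral_image_eq_integral_abs_det_fderiv_smul volume hS hder hinj F, hdet,
    abs_of_nonneg (by positivity), integral_smul, smul_eq_mul]
  have : ‖t‖ ^ 2 ≠ 0 := by
    have := norm_pos_iff.mpr ht
    positivity
  field_simp

theorem GML (hGAL : GAL_stmt) (hGQE : GQE_stmt) (hGTH : GTH_stmt) (hGLB : GLB_stmt)
    (hGGR : GGR_stmt) (hGMF : GMF_stmt) (hGM1 : GM1_stmt) (hGCN : GCN_stmt)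
    (hGEN : GEN_stmt) : GML_stmt := by
  intro n ra Cf D g hs hL hG
  obtain ⟨A, hA⟩ := hGAL n ra Cf D hs hL
  obtain ⟨q, hqd, hqB⟩ := hGQE n ra Cf D g hs hL hG
  obtain ⟨θ, hθ, hθl⟩ := hGTH n ra Cf D hs
  obtain ⟨-, -, -, -, -, hsep, -⟩ := hGLB n ra Cf D hs hL
  obtain ⟨hgrp, hcom, hvA, hBA⟩ := hGGR n ra Cf D A hs hL hA
  obtain ⟨C₀, hC₀, hEN⟩ := hGEN n ra Cf D q θ hs hL hqd hqB hθ hθl
  have hMF := hGMF n ra Cf D A hs hL hA
  have hM1 := hGM1 n ra Cf D A hs hL hA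
  have hCN := hGCN n ra Cf D hs hL
  have hcard : (Pin D).Finite → 1 ≤ (Pin D).ncard := fun hfin =>
    Nat.one_le_iff_ne_zero.mpr (Set.ncard_ne_zero_of_mem hL.P0 hfin)
  refine ⟨A, q, θ, hA, ?_⟩
  refine ⟨hL.P0, hsep, hG.bd, hL.Bdiff, hG.pp, hG.b2, hL.vdiff, hL.vzero, hqd, hqB, hA.nrm, hgrp,
    ?_, hcom, hvA, hBA, hθ, ?_, ?_, ?_, ?_⟩
  · intro p hp
    have hAp : A p ≠ 0 := by
      intro h0
      have := hA.nrm p hp
      rw [h0, norm_zero] at this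
      exact zero_ne_one this
    obtain ⟨h1, h2⟩ := hA.inv p hp
    refine ⟨-p / A p, h1, ?_, ?_⟩
    · field_simp
      ring
    · rw [h2]
      field_simp
  · -- cF
    intro hfin S mm hS
    obtain ⟨R, hR⟩ : ∃ R > (0 : ℝ), (⋃ y ∈ S, ball y (1 : ℝ)) ⊆ ball 0 R := by
      have hb : Bornology.IsBounded (⋃ y ∈ S, ball y (1 : ℝ)) := by
        rw [show (⋃ y ∈ S, ball y (1 : ℝ)) = ⋃ y ∈ (S : Set ℂ), ball y (1 : ℝ) by simp]
        exact (Bornology.isBounded_biUnion S.finite_toSet).mpr fun i _ => isBounded_ball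
      obtain ⟨R, hR⟩ := hb.subset_ball 0
      exact ⟨max R 1, by positivity, hR.trans (ball_subset_ball (le_max_left _ _))⟩
    refine hCN S mm (Pin D).ncard 1 (hcard hfin) one_pos hS ?_
    filter_upwards [hMF hfin R hR.1] with m hm z J hJ1 hJ2
    exact hm z J (Or.inl hJ1) fun j hj => by
      obtain ⟨x, hx, hx'⟩ := hJ2 j hj
      exact ⟨x, hR.2 hx, hx'⟩
  · -- cZ
    intro t ht hP S mm hS hdis
    have hA1 : ∀ p ∈ Pin D, A p = 1 := GML_A1 (Pin D) A t ht hP hA.nrm hcom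
    have hcl : IsClosed (ZL t) := by rw [← hP]; exact GML_closed D
    obtain ⟨δ, hδ, hδ'⟩ := GML_sep t ht hcl S hdis
    obtain ⟨R, hR⟩ : ∃ R > (0 : ℝ), (⋃ y ∈ S, ball y δ) ⊆ ball 0 R := by
      have hb : Bornology.IsBounded (⋃ y ∈ S, ball y δ) := by
        rw [show (⋃ y ∈ S, ball y δ) = ⋃ y ∈ (S : Set ℂ), ball y δ by simp]
        exact (Bornology.isBounded_biUnion S.finite_toSet).mpr fun i _ => isBounded_ball
      obtain ⟨R, hR⟩ := hb.subset_ball 0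
      exact ⟨max R 1, by positivity, hR.trans (ball_subset_ball (le_max_left _ _))⟩
    have h1 := hCN S mm 1 δ le_rfl hδ hS ?_
    · omega
    have h2 := hM1 R δ (⋃ y ∈ S, ball y δ) hδ hR.2 ?_
    · filter_upwards [h2] with m hm z J hJ1 hJ2
      exact hm z J (Or.inl hJ1) hJ2
    intro x hx x' hx' p hp hp0
    simp only [mem_iUnion, mem_ball, dist_eq_norm, exists_prop] at hx hx'
    obtain ⟨z, hz, hxz⟩ := hx
    obtain ⟨z', hz', hxz'⟩ := hx'
    have h3 := hδ' z hz z' hz' p (hP ▸ hp) hp0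
    rw [hA1 p hp]
    have h4 : z' - z - p = (x' - (p + 1 * x)) - (x' - z') + (x - z) := by ring
    have h5 : ‖z' - z - p‖ ≤ ‖x' - (p + 1 * x)‖ + ‖x' - z'‖ + ‖x - z‖ := by
      rw [h4]
      exact (norm_add_le _ _).trans (add_le_add (norm_sub_le _ _) le_rfl)
    linarith
  · -- eF
    intro hfin
    refine ⟨C₀ * (Pin D).ncard, fun R hR => ?_⟩
    refine hEN R (ball 0 R) (Pin D).ncard isOpen_ball le_rfl ?_
    filter_upwards [hMF hfin R hR] with m hm z J hJ1 hJ2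
    exact hm z J (Or.inr hJ1) hJ2
  · -- eZ
    intro t ht hP
    have ht' : 0 < ‖t‖ := norm_pos_iff.mpr ht
    have hA1 : ∀ p ∈ Pin D, A p = 1 := GML_A1 (Pin D) A t ht hP hA.nrm hcom
    refine ⟨(‖t‖ ^ 2)⁻¹ * (C₀ * (1 : ℕ)), fun Y hY ε hε => ?_⟩
    have hS : IsOpen {z : ℂ | ε < z.re ∧ z.re < 1 - ε ∧ |z.im| < Y} := by
      refine (isOpen_lt continuous_const continuous_re).inter
        ((isOpen_lt continuous_re continuous_const).inter
          (isOpen_lt continuous_im.abs continuous_const))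
    set S := {z : ℂ | ε < z.re ∧ z.re < 1 - ε ∧ |z.im| < Y} with hSdef
    have hopen : IsOpen ((fun z => t * z) '' S) := by
      have h1 := (Homeomorph.mulLeft₀ t ht).isOpenMap S hS
      simpa using h1
    have hsub : (fun z => t * z) '' S ⊆ ball 0 (‖t‖ * (1 + Y)) := by
      rintro x ⟨z, hz, rfl⟩
      rw [mem_ball_zero_iff]
      show ‖t * z‖ < _
      rw [norm_mul]
      refine mul_lt_mul_of_pos_left ?_ ht'
      have h1 : ‖z‖ ≤ |z.re| + |z.im| := Complex.norm_le_abs_re_add_abs_im z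
      have h2 : |z.re| < 1 := by
        rw [abs_lt]
        exact ⟨by linarith [hz.1, hε.1], by linarith [hz.2.1, hε.1]⟩
      linarith [hz.2.2]
    rw [GML_cv t ht S hS.measurableSet (En θ (Bin D) q)]
    refine mul_le_mul_of_nonneg_left ?_ (by positivity)
    refine hEN (‖t‖ * (1 + Y)) _ 1 hopen hsub ?_
    have h2 := hM1 (‖t‖ * (1 + Y)) (2 * ε * ‖t‖) _ (by have := hε.1; positivity) hsub ?_
    · filter_upwards [h2] with m hm z J hJ1 hJ2
      exact hm z J (Or.inr hJ1) hJ2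
    rintro x ⟨z, hz, rfl⟩ x' ⟨z', hz', rfl⟩ p hp hp0
    rw [hA1 p hp]
    rw [hP] at hp
    obtain ⟨k, rfl⟩ := hp
    have hk : k ≠ 0 := by
      rintro rfl
      simp at hp0
    show 2 * ε * ‖t‖ ≤ ‖t * z' - ((k : ℂ) * t + 1 * (t * z))‖
    have e1 : t * z' - ((k : ℂ) * t + 1 * (t * z)) = t * (z' - z - k) := by ring
    rw [e1, norm_mul, mul_comm]
    refine mul_le_mul_of_nonneg_left ?_ (norm_nonneg _)
    have h3 : |(z' - z - k).re| ≤ ‖z' - z - k‖ := Complex.abs_re_le_norm _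
    refine le_trans ?_ h3
    have h4 : (z' - z - k).re = z'.re - z.re - k := by simp
    rw [h4]
    have h5 : (1 : ℝ) ≤ |(k : ℝ)| := by exact_mod_cast Int.one_le_abs hk
    have hz1 := hz.1
    have hz2 := hz.2.1
    have hz1' := hz'.1
    have hz2' := hz'.2.1
    rcases le_abs.mp h5 with h | h
    · refine le_trans ?_ (neg_le_abs _)
      linarith
    · refine le_trans ?_ (le_abs_self _)
      linarith

end V3S
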